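import Pool.Agent.Helper38.VF.Goals2

/-!
MP_266b34_co, project VTF of helper38, packet RK2.
-/

set_option autoImplicit false

namespace Pool.Agent.Helper70.VF

open Pool.Agent.Helper27.VF
open Pool.Agent.Helper38.VF

universe u

theorem RK2 (h1 : ActStmt.{u}) (h2 : L2dStmt.{u}) (h3 : FoxStmt.{u}) (h4 : KurStmt.{u})
    (h5 : TrcStmt.{u}) : Rk2Stmt.{u} := by
  intro A _ n k a ha hTF hden
  obtain ⟨act, hact⟩ := h1 A
  obtain ⟨x, hx⟩ := hden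
  have hD := hx (L2 A) (fun y hy => h2 A hact hTF y hy)
  obtain ⟨C, hC, hC'⟩ := h3 A hact n k a x ha
  obtain ⟨Tk, hTk⟩ := h4 A k
  obtain ⟨Tn, hTn⟩ := h4 A n
  refine h5 A n k C hC ?_
  have hd : Dense (Tk '' {e : Fin k → L2 A | ∃ δ : A → L2 A, IsDer δ ∧ ∀ i, e i = δ (x i)}) :=
    Tk.surjective.denseRange.dense_image Tk.continuous hD
  refine hd.mono ?_
  rintro _ ⟨e, ⟨δ, hδ, he⟩, rfl⟩
  refine ⟨Tn fun i => δ (a i), ?_⟩
  apply lp.ext
  funext z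
  obtain ⟨i, b⟩ := z
  rw [hC' δ hδ _ (fun i b => hTn _ i b) i b, hTk, he i]

end Pool.Agent.Helper70.VF
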