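import Pool.Agent.Helper96.VF.Goals

/-!
# Project VF (MP_6829b3_nt), packet VF-CE: the size of a class of type `e`
-/

set_option autoImplicit false

namespace Pool.Agent.Helper70.VF

open Pool.Agent.Helper96.VF

theorem logw {c K N i : ℕ} (hc : 1 < c) (hK : 0 < K) (h1 : K * c ^ i ≤ N)
    (h2 : N < K * c ^ (i + 1)) : Nat.log c (N / K) = i := by
  have h3 : c ^ i ≤ N / K := (Nat.le_div_iff_mul_le hK).2 (by rwa [mul_comm])
  have h4 : N / K < c ^ (i + 1) := (Nat.div_lt_iff_lt_mul hK).2 (by rwa [mul_comm])
  have h5 : 0 < N / K := lt_of_lt_of_le (pow_pos (by omega) i) h3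
  exact (Nat.log_eq_iff (Or.inr ⟨hc, h5.ne'⟩)).2 ⟨h3, h4⟩

theorem logv {c K N : ℕ} (hc : 1 < c) (hK : 0 < K) (h1 : K ≤ N) :
    K * c ^ Nat.log c (N / K) ≤ N ∧ N < K * c ^ (Nat.log c (N / K) + 1) := by
  have h5 : 0 < N / K := Nat.div_pos h1 hK
  constructor
  · have := Nat.pow_log_le_self c h5.ne'
    have h := (Nat.le_div_iff_mul_le hK).1 this
    rwa [mul_comm] at h
  · have := Nat.lt_pow_succ_log_self hc (N / K)
    have h := (Nat.div_lt_iff_lt_mul hK).1 this
    rwa [mul_comm] at h

theorem gCE : CE := by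
  classical
  intro N M hM
  rcases Nat.lt_or_ge N M with hNM | hMN
  · have h0 : N / M = 0 := Nat.div_eq_of_lt hNM
    have h1 : SE N M = ∅ := by
      apply Finset.eq_empty_of_forall_notMem
      intro u hu
      unfold SE at hu
      rw [Finset.mem_filter] at hu
      have hp : 1 ≤ 2 ^ u.1 * 3 ^ u.2 := Nat.one_le_iff_ne_zero.2 (by positivity)
      have hM2 : M ≤ M * (2 ^ u.1 * 3 ^ u.2) := Nat.le_mul_of_pos_right M (by omega)
      rcases hu.2 with h | h <;> omega
    rw [h1, h0]
    simp [H]
  · have hy : 0 < N / M := Nat.div_pos hMN hM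
    have hpow : ∀ i : ℕ, (2 : ℕ) ^ (2 * i) = 4 ^ i := by
      intro i; rw [pow_mul]; norm_num
    set A : Finset (ℕ × ℕ) := (Finset.range (Nat.log 3 (N / M) + 1)).image
      (fun b => (2 * Nat.log 4 (N / (M * 3 ^ b)), b)) with hA
    set B : Finset (ℕ × ℕ) := (Finset.range (Nat.log 4 (N / M))).image
      (fun i => (2 * i + 1, Nat.log 3 (N / (4 * M * 4 ^ i)))) with hB
    have hSE : SE N M = A ∪ B := by
      ext ⟨a, b⟩
      rw [Finset.mem_union, hA, hB, Finset.mem_image, Finset.mem_image]
      unfold SE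
      rw [Finset.mem_filter, Finset.mem_product, Finset.mem_range, Finset.mem_range]
      constructor
      · rintro ⟨-, ⟨he, h1, h2⟩ | ⟨he, h1, h2⟩⟩
        · left
          simp only at he h1 h2
          obtain ⟨i, rfl⟩ := he
          rw [← two_mul, hpow] at h1 h2
          refine ⟨b, ?_, ?_⟩
          · rw [Finset.mem_range]
            have : 3 ^ b ≤ N / M := by
              rw [Nat.le_div_iff_mul_le hM]
              calc 3 ^ b * M = M * (1 * 3 ^ b) := by ring
                _ ≤ M * (4 ^ i * 3 ^ b) :=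
                    Nat.mul_le_mul_left _ (Nat.mul_le_mul_right _ (Nat.one_le_pow _ _ (by norm_num)))
                _ ≤ N := h2
            have := (Nat.le_log_iff_pow_le (by norm_num) hy.ne').2 this
            omega
          · have : Nat.log 4 (N / (M * 3 ^ b)) = i := by
              apply logw (by norm_num) (by positivity)
              · calc M * 3 ^ b * 4 ^ i = M * (4 ^ i * 3 ^ b) := by ring
                  _ ≤ N := h2
              · calc N < 4 * (M * (4 ^ i * 3 ^ b)) := h1
                  _ = M * 3 ^ b * 4 ^ (i + 1) := by ring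
            rw [this, ← two_mul]
        · right
          simp only at he h1 h2
          obtain ⟨i, rfl⟩ := Nat.not_even_iff_odd.1 he
          rw [pow_succ, hpow] at h1 h2
          refine ⟨i, ?_, ?_⟩
          · rw [Finset.mem_range]
            have : 4 ^ (i + 1) ≤ N / M := by
              rw [Nat.le_div_iff_mul_le hM]
              calc 4 ^ (i + 1) * M = 2 * (M * (4 ^ i * 2 * 1)) := by ring
                _ ≤ 2 * (M * (4 ^ i * 2 * 3 ^ b)) :=
                    Nat.mul_le_mul_left _ (Nat.mul_le_mul_left _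
                      (Nat.mul_le_mul_left _ (Nat.one_le_pow _ _ (by norm_num))))
                _ ≤ N := h2
            have := (Nat.le_log_iff_pow_le (by norm_num) hy.ne').2 this
            omega
          · have : Nat.log 3 (N / (4 * M * 4 ^ i)) = b := by
              apply logw (by norm_num) (by positivity)
              · calc 4 * M * 4 ^ i * 3 ^ b = 2 * (M * (4 ^ i * 2 * 3 ^ b)) := by ring
                  _ ≤ N := h2
              · calc N < 6 * (M * (4 ^ i * 2 * 3 ^ b)) := h1
                  _ = 4 * M * 4 ^ i * 3 ^ (b + 1) := by ring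
            rw [this]
      · have bnd : ∀ a' b' : ℕ, M * (2 ^ a' * 3 ^ b') ≤ N → a' < N + 1 ∧ b' < N + 1 := by
          intro a' b' h
          have h1 : 2 ^ a' * 3 ^ b' ≤ M * (2 ^ a' * 3 ^ b') := Nat.le_mul_of_pos_left _ hM
          have h2 : 2 ^ a' ≤ 2 ^ a' * 3 ^ b' := Nat.le_mul_of_pos_right _ (by positivity)
          have h3 : 3 ^ b' ≤ 2 ^ a' * 3 ^ b' := Nat.le_mul_of_pos_left _ (by positivity)
          have h4 : a' < 2 ^ a' := Nat.lt_two_pow_self
          have h5 : b' < 3 ^ b' := Nat.lt_pow_self (by norm_num)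
          constructor <;> omega
        rintro (⟨b', hb', he⟩ | ⟨i, hi, he⟩)
        · rw [Finset.mem_range] at hb'
          rw [Prod.mk.injEq] at he
          obtain ⟨rfl, rfl⟩ := he
          have hb2 : 3 ^ b' ≤ N / M :=
            (Nat.le_log_iff_pow_le (by norm_num) hy.ne').1 (by omega)
          rw [Nat.le_div_iff_mul_le hM] at hb2
          have hK : M * 3 ^ b' ≤ N := by rwa [mul_comm]
          obtain ⟨k1, k2⟩ := logv (c := 4) (K := M * 3 ^ b') (N := N) (by norm_num)
            (by positivity) hK
          set i := Nat.log 4 (N / (M * 3 ^ b'))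
          have h2 : M * (2 ^ (2 * i) * 3 ^ b') ≤ N := by
            rw [hpow]
            calc M * (4 ^ i * 3 ^ b') = M * 3 ^ b' * 4 ^ i := by ring
              _ ≤ N := k1
          refine ⟨bnd _ _ h2, Or.inl ⟨⟨i, by ring⟩, ?_, h2⟩⟩
          show N < 4 * (M * (2 ^ (2 * i) * 3 ^ b'))
          rw [hpow]
          calc N < M * 3 ^ b' * 4 ^ (i + 1) := k2
            _ = 4 * (M * (4 ^ i * 3 ^ b')) := by ring
        · rw [Finset.mem_range] at hi
          rw [Prod.mk.injEq] at he
          obtain ⟨rfl, rfl⟩ := he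
          have hb2 : 4 ^ (i + 1) ≤ N / M :=
            (Nat.le_log_iff_pow_le (by norm_num) hy.ne').1 (by omega)
          rw [Nat.le_div_iff_mul_le hM] at hb2
          have hK : 4 * M * 4 ^ i ≤ N := by
            calc 4 * M * 4 ^ i = 4 ^ (i + 1) * M := by ring
              _ ≤ N := hb2
          obtain ⟨k1, k2⟩ := logv (c := 3) (K := 4 * M * 4 ^ i) (N := N) (by norm_num)
            (by positivity) hK
          set j := Nat.log 3 (N / (4 * M * 4 ^ i))
          have h2 : 2 * (M * (2 ^ (2 * i + 1) * 3 ^ j)) ≤ N := by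
            rw [pow_succ, hpow]
            calc 2 * (M * (4 ^ i * 2 * 3 ^ j)) = 4 * M * 4 ^ i * 3 ^ j := by ring
              _ ≤ N := k1
          refine ⟨bnd (2 * i + 1) j (by omega), Or.inr ⟨?_, ?_, h2⟩⟩
          · show ¬ Even (2 * i + 1)
            rw [Nat.not_even_iff_odd]
            exact ⟨i, rfl⟩
          · show N < 6 * (M * (2 ^ (2 * i + 1) * 3 ^ j))
            rw [pow_succ, hpow]
            calc N < 4 * M * 4 ^ i * 3 ^ (j + 1) := k2
              _ = 6 * (M * (4 ^ i * 2 * 3 ^ j)) := by ring
    have hd : Disjoint A B := by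
      rw [Finset.disjoint_left]
      intro u h1 h2
      rw [hA, Finset.mem_image] at h1
      rw [hB, Finset.mem_image] at h2
      obtain ⟨b, -, hb⟩ := h1
      obtain ⟨i, -, hi⟩ := h2
      rw [← hi, Prod.mk.injEq] at hb
      omega
    have cA : A.card = Nat.log 3 (N / M) + 1 := by
      rw [hA, Finset.card_image_of_injective, Finset.card_range]
      intro b b' h
      exact (Prod.mk.inj h).2
    have cB : B.card = Nat.log 4 (N / M) := by
      rw [hB, Finset.card_image_of_injective, Finset.card_range]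
      intro i i' h
      have := (Prod.mk.inj h).1
      omega
    rw [hSE, Finset.card_union_of_disjoint hd, cA, cB]
    unfold H
    rw [if_neg hy.ne']
    omega

end Pool.Agent.Helper70.VF
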