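import Pool.Agent.Helper27.VF.Goals

/-!
MP_266b34_co, project VF of helper27, packet FAC.
-/

set_option autoImplicit false

namespace Pool.Agent.Helper70.VF

open Pool.Agent.Helper27.VF

universe u

variable {A W : Type u} [Group A] [MulAction A W] {G G₀ : SimpleGraph W} {w : W}
  {p : Ultrafilter W}

theorem dist_smul_le (h : Stg A G G₀ w p) (a : A) (x y : W) :
    G₀.dist (a • x) (a • y) ≤ G₀.dist x y := by
  obtain ⟨q, hq⟩ := (h.conn x y).exists_walk_length_eq_dist
  let φ : G₀ →g G₀ := ⟨fun z => a • z, fun {u v} huv => h.inv₀ a u v huv⟩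
  have h1 := SimpleGraph.dist_le (q.map φ)
  rw [SimpleGraph.Walk.length_map, hq] at h1
  exact h1

theorem walk_finite (lf : ∀ x, {y | G₀.Adj x y}.Finite) (n : ℕ) :
    ∀ x : W, {y | ∃ q : G₀.Walk x y, q.length ≤ n}.Finite := by
  induction n with
  | zero =>
    intro x
    refine (Set.finite_singleton x).subset ?_
    rintro y ⟨q, hq⟩
    exact (SimpleGraph.Walk.eq_of_length_eq_zero (Nat.le_zero.1 hq)).symm
  | succ n ih =>
    intro x
    have h1 : (⋃ z ∈ {z | G₀.Adj x z}, {y | ∃ q : G₀.Walk z y, q.length ≤ n}).Finite :=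
      (lf x).biUnion fun z _ => ih z
    refine ((Set.finite_singleton x).union h1).subset ?_
    rintro y ⟨q, hq⟩
    cases q with
    | nil => exact Or.inl rfl
    | cons hxz q' =>
      right
      rw [SimpleGraph.Walk.length_cons] at hq
      exact Set.mem_biUnion (Set.mem_setOf_eq ▸ hxz) ⟨q', by omega⟩

theorem ball_finite (h : Stg A G G₀ w p) (x : W) (n : ℕ) :
    {y | G₀.dist x y ≤ n}.Finite := by
  refine (walk_finite h.lf n x).subset ?_
  intro y hy
  obtain ⟨q, hq⟩ := (h.conn x y).exists_walk_length_eq_dist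
  exact ⟨q, by rw [hq]; exact hy⟩

theorem leave {x y : W} (q : G₀.Walk x y) (U : Set W) (hx : x ∈ U) (hy : y ∉ U) :
    ∃ b b' : W, b ∈ U ∧ b' ∉ U ∧ G₀.Adj b b' ∧ ∃ r : G₀.Walk x b, r.length ≤ q.length := by
  induction q with
  | nil => exact absurd hx hy
  | @cons u v z huv q ih =>
    rcases Classical.em (v ∈ U) with hv | hv
    · obtain ⟨b, b', h1, h2, h3, r, hr⟩ := ih hv hy
      refine ⟨b, b', h1, h2, h3, SimpleGraph.Walk.cons huv r, ?_⟩
      rw [SimpleGraph.Walk.length_cons, SimpleGraph.Walk.length_cons]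
      omega
    · exact ⟨u, v, hx, hv, huv, SimpleGraph.Walk.nil, Nat.zero_le _⟩

theorem FAC : FacStmt.{u} := by
  intro A W _ _ G G₀ w p h
  have h1 : ∃ R : ℕ, ∀ x : W, ∃ a : A, G₀.dist (a • w) x ≤ R := by
    obtain ⟨F, hF, hF'⟩ := h.fin
    refine ⟨hF.toFinset.sup fun f => G₀.dist w f, fun x => ?_⟩
    obtain ⟨a, f, hf, rfl⟩ := hF' x
    refine ⟨a, (dist_smul_le h a w f).trans ?_⟩
    exact Finset.le_sup (f := fun f => G₀.dist w f) (hF.mem_toFinset.2 hf)
  refine ⟨h1, ball_finite h, ?_⟩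
  intro U hU hb hfin
  obtain ⟨R, hR⟩ := h1
  have f1 : (⋃ b ∈ {x | x ∈ U ∧ ∃ y, y ∉ U ∧ G₀.Adj x y}, {x | G₀.dist b x ≤ R}).Finite :=
    hb.biUnion fun b _ => ball_finite h b R
  have f2 : (⋃ a ∈ {a : A | a • w ∈ U}, {x | G₀.dist (a • w) x ≤ R}).Finite :=
    hfin.biUnion fun a _ => ball_finite h (a • w) R
  refine hU ((f1.union f2).subset ?_)
  intro x hx
  rcases Classical.em (x ∈ ⋃ b ∈ {x | x ∈ U ∧ ∃ y, y ∉ U ∧ G₀.Adj x y},
    {x | G₀.dist b x ≤ R}) with hx1 | hx1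
  · exact Or.inl hx1
  · right
    obtain ⟨a, ha⟩ := hR x
    have haU : a • w ∈ U := by
      by_contra hna
      obtain ⟨q, hq⟩ := (h.conn x (a • w)).exists_walk_length_eq_dist
      obtain ⟨b, b', g1, g2, g3, r, hr⟩ := leave q U hx hna
      refine hx1 (Set.mem_biUnion (x := b) ⟨g1, b', g2, g3⟩ ?_)
      have g4 := SimpleGraph.dist_le r.reverse
      rw [SimpleGraph.Walk.length_reverse] at g4
      rw [SimpleGraph.dist_comm] at hq
      show G₀.dist b x ≤ R
      omega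
    exact Set.mem_biUnion (x := a) haU ha

end Pool.Agent.Helper70.VF
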