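import Pool.Agent.Helper27.VF.Goals

/-!
MP_266b34_co, project VF of helper27, packet TOF.
-/

set_option autoImplicit false

namespace Pool.Agent.Helper70.VF

open Pool.Agent.Helper27.VF

universe u

theorem out_smul {A W : Type u} [Group A] [MulAction A W] {G : SimpleGraph W} {K : Set W}
    (hinv : ∀ (a : A) (x y : W), G.Adj x y → G.Adj (a • x) (a • y)) (g : A)
    (hK : ∀ x, x ∉ K → g • x ∉ K) {x z : W} (h : Out G K x z) : Out G K (g • x) (g • z) := by
  unfold Out at h ⊢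
  induction h with
  | refl => exact Relation.ReflTransGen.refl
  | tail _ hbc ih => exact ih.tail ⟨hinv g _ _ hbc.1, hK _ hbc.2⟩

theorem tg_smul {A W : Type u} [Group A] [MulAction A W] {G : SimpleGraph W} {K : Set W}
    (hinv : ∀ (a : A) (x y : W), G.Adj x y → G.Adj (a • x) (a • y)) (g : A)
    (hK : ∀ x, x ∉ K → g • x ∉ K) {x y x' y' : K} (hx : (x' : W) = g • (x : W))
    (hy : (y' : W) = g • (y : W)) (h : (TG G K).Adj x y) : (TG G K).Adj x' y' := by
  unfold TG at h ⊢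
  rw [SimpleGraph.fromRel_adj] at h ⊢
  obtain ⟨hne, hr⟩ := h
  refine ⟨?_, ?_⟩
  · intro he
    apply hne
    apply Subtype.ext
    have := congrArg Subtype.val he
    rw [hx, hy] at this
    exact MulAction.injective g this
  · rcases hr with ⟨z, h1, h2⟩ | ⟨z, h1, h2⟩
    · left
      refine ⟨g • z, ?_, ?_⟩
      · rw [hx]; exact out_smul hinv g hK h1
      · rw [hy]; exact hinv g _ _ h2
    · right
      refine ⟨g • z, ?_, ?_⟩
      · rw [hy]; exact out_smul hinv g hK h1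
      · rw [hx]; exact hinv g _ _ h2

theorem TOF (h1 : ToaStmt.{u}) (h2 : TobStmt.{u}) (h3 : TocStmt.{u}) (h4 : TodStmt.{u})
    (h5 : ToeStmt.{u}) : TofStmt.{u} := by
  intro A W _ _ G G₀ w p h k hk htf
  obtain ⟨a1, F, hF, hFK, hF'⟩ := h1 A W G G₀ w p h k hk htf
  obtain ⟨b1, b2⟩ := h2 A W G G₀ w p h k hk
  have c1 := h3 A W G G₀ w p h k hk htf
  obtain ⟨B, hB⟩ : ∃ B : Subgroup A, B = BB A G p k := ⟨_, rfl⟩
  obtain ⟨K, hK⟩ : ∃ K : Set W, K = Kp A G p k := ⟨_, rfl⟩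
  rw [← hB, ← hK] at a1 hF'
  rw [← hK] at hFK b1 b2 c1
  rw [← hB]
  obtain ⟨d1, d2, d3⟩ := h4 W G G₀ K h.le c1 h.conn ⟨w, b1⟩ h.lf
  have e1 := h5 W G K c1
  have hKn : ∀ g ∈ B, ∀ x, x ∉ K → g • x ∉ K := by
    intro g hg x hx hgx
    apply hx
    have := a1 g⁻¹ (B.inv_mem hg) _ hgx
    rwa [inv_smul_smul] at this
  let act : MulAction B K :=
    { smul := fun g x => ⟨(g : A) • (x : W), a1 g g.2 x x.2⟩
      one_smul := fun x => Subtype.ext (one_smul A (x : W))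
      mul_smul := fun g g' x => Subtype.ext (mul_smul (g : A) (g' : A) (x : W)) }
  have hact : ∀ (g : B) (x : K), ((g • x : K) : W) = (g : A) • (x : W) := fun _ _ => rfl
  have hrange : Set.range (Subtype.val : K → W) ∈ p := by
    rw [Subtype.range_coe]; exact b2
  let p' : Ultrafilter K := p.comap Subtype.val_injective hrange
  have hp' : ∀ U : Set K, U ∈ p' ↔ ∃ t ∈ p, Subtype.val ⁻¹' t ⊆ U := by
    intro U
    exact Iff.rfl
  refine ⟨K, act, TG G K, TG G₀ K, ⟨w, b1⟩, p', ?_, ?_⟩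
  · refine ⟨?_, ?_, d1, ?_, ?_, d2, d3, ?_, ?_⟩
    · intro a x hax
      apply Subtype.ext
      exact h.free (a : A) (x : W) (congrArg Subtype.val hax)
    · refine ⟨Subtype.val ⁻¹' F, hF.preimage Subtype.val_injective.injOn, ?_⟩
      rintro ⟨x, hx⟩
      obtain ⟨g, hg, f, hf, hgf⟩ := hF' x hx
      exact ⟨⟨g, hg⟩, ⟨f, hFK hf⟩, hf, Subtype.ext hgf⟩
    · intro a x y hxy
      exact tg_smul h.inv (a : A) (hKn a a.2) (hact a x) (hact a y) hxy
    · intro a x y hxy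
      exact tg_smul h.inv₀ (a : A) (hKn a a.2) (hact a x) (hact a y) hxy
    · intro U hU hUp
      obtain ⟨t, ht, htU⟩ := (hp' U).1 hUp
      refine h.nonp (t ∩ K) ?_ (Filter.inter_mem ht b2)
      refine (hU.image Subtype.val).subset ?_
      rintro x ⟨hx1, hx2⟩
      exact ⟨⟨x, hx2⟩, htU hx1, rfl⟩
    · refine (hp' _).2 ⟨_, h.nb, ?_⟩
      intro x hx
      show (TG G K).Adj ⟨w, b1⟩ x
      unfold TG
      rw [SimpleGraph.fromRel_adj]
      refine ⟨?_, Or.inl ⟨w, Relation.ReflTransGen.refl, hx⟩⟩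
      intro he
      have : G.Adj w w := by
        have h6 : G.Adj w (x : W) := hx
        rw [← he] at h6
        exact h6
      exact G.loopless.irrefl w this
  · rintro ⟨Z, hZ, hZ'⟩
    refine ⟨(fun b : B => (b : A)) '' Z, hZ.image Subtype.val_injective.injOn, ?_⟩
    rintro _ ⟨a, ha, rfl⟩ _ ⟨b, hb, rfl⟩ c hc ⟨g1, g2⟩
    obtain ⟨c', hc', X, hX, i1, i2⟩ := e1 c hc
    refine hZ' a ha b hb c' hc' ⟨?_, ?_⟩
    · refine (hp' _).2 ⟨{x | (a : A) • x ∈ c.1} ∩ {x | (a : A) • x ∈ X}ᶜ,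
        Filter.inter_mem g1 ?_, ?_⟩
      · exact Ultrafilter.compl_mem_iff_notMem.2 (not_inn_finite h hX)
      · rintro x ⟨hx1, hx2⟩
        exact i1 (a • x) hx1 hx2
    · refine (hp' _).2 ⟨{x | (b : A) • x ∈ c.2} ∩ {x | (b : A) • x ∈ X}ᶜ,
        Filter.inter_mem g2 ?_, ?_⟩
      · exact Ultrafilter.compl_mem_iff_notMem.2 (not_inn_finite h hX)
      · rintro x ⟨hx1, hx2⟩
        exact i2 (b • x) hx1 hx2

end Pool.Agent.Helper70.VF
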